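import Mathlib

/-!
# Power lower bounds: from dyadic scales to all `N`
-/

set_option autoImplicit false

namespace Pool.Agent.Lib.MP_8fac0f_nt.OX

open Finset

theorem asymG {ι : Type} (F : ι → ℕ → ℕ) (J E C : ℕ) (hE0 : 0 < E) (hJE : J ≤ E)
    (h : ∃ lam μ0 : ℕ, ∀ μ : ℕ, μ0 ≤ μ → ∀ N : ℕ, 2 ^ (lam + E * μ) ≤ N →
      ∀ i, 2 ^ (J * μ) ≤ 2 ^ C * F i N) :
    ∃ c : ℝ, 0 < c ∧ ∃ N0 : ℕ, ∀ N : ℕ, N0 ≤ N → ∀ i,
      c * (N : ℝ) ^ ((J : ℝ) / (E : ℝ)) ≤ F i N := by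
  obtain ⟨lam, μ0, h⟩ := h
  refine ⟨(2⁻¹ : ℝ) ^ (lam + J + C), by positivity, 2 ^ (lam + E * μ0), fun N hN i => ?_⟩
  have hN0 : N ≠ 0 := (lt_of_lt_of_le (by positivity) hN).ne'
  have hlog : lam + E * μ0 ≤ Nat.log 2 N := Nat.le_log_of_pow_le (by norm_num) hN
  set q := Nat.log 2 N with hq
  set μ := (q - lam) / E with hμ
  have h1 : μ0 ≤ μ := (Nat.le_div_iff_mul_le hE0).2 (by rw [mul_comm]; omega)
  have hlam : lam ≤ q := (Nat.le_add_right _ _).trans hlog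
  have h2 : lam + E * μ ≤ q := by
    have h20 : E * μ ≤ q - lam := Nat.mul_div_le (q - lam) E
    omega
  have h3 : 2 ^ (lam + E * μ) ≤ N :=
    (Nat.pow_le_pow_right (by norm_num) h2).trans (Nat.pow_log_le_self 2 hN0)
  have h4 := h μ h1 N h3 i
  have h5 : q - lam < E * (μ + 1) := Nat.lt_mul_div_succ (q - lam) hE0
  have h6 : N < 2 ^ (lam + E * (μ + 1)) :=
    lt_of_lt_of_le (Nat.lt_pow_succ_log_self (by norm_num) N)
      (Nat.pow_le_pow_right (by norm_num) (by omega))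
  have hEpos : (0 : ℝ) < E := by exact_mod_cast hE0
  set e : ℝ := (J : ℝ) / E with he
  have he0 : 0 ≤ e := by positivity
  have he1 : e ≤ 1 := by
    rw [he, div_le_one hEpos]
    exact_mod_cast hJE
  have hEe : (E : ℝ) * e = J := by rw [he]; field_simp
  have h7 : (N : ℝ) ≤ (2 : ℝ) ^ (lam + E * (μ + 1)) := by exact_mod_cast h6.le
  have h8 : (N : ℝ) ^ e ≤ (2 : ℝ) ^ (lam + J * (μ + 1)) := by
    calc (N : ℝ) ^ e ≤ ((2 : ℝ) ^ (lam + E * (μ + 1))) ^ e :=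
          Real.rpow_le_rpow (by positivity) h7 he0
      _ = (2 : ℝ) ^ (((lam + E * (μ + 1) : ℕ) : ℝ) * e) := by
          rw [← Real.rpow_natCast, ← Real.rpow_mul (by norm_num)]
      _ ≤ (2 : ℝ) ^ ((lam + J * (μ + 1) : ℕ) : ℝ) := by
          refine Real.rpow_le_rpow_of_exponent_le (by norm_num) ?_
          push_cast
          have e1 : ((lam : ℝ) + E * (μ + 1)) * e = lam * e + (E * e) * (μ + 1) := by ring
          rw [e1, hEe]
          have e2 : (lam : ℝ) * e ≤ lam * 1 := mul_le_mul_of_nonneg_left he1 (by positivity)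
          linarith
      _ = (2 : ℝ) ^ (lam + J * (μ + 1)) := Real.rpow_natCast _ _
  have h9 : (2 : ℝ) ^ (J * μ) ≤ 2 ^ C * (F i N : ℝ) := by exact_mod_cast h4
  have h10 : (2⁻¹ : ℝ) ^ (lam + J + C) * (2 : ℝ) ^ (lam + J * (μ + 1)) =
      (2 ^ C)⁻¹ * (2 : ℝ) ^ (J * μ) := by
    have e1 : lam + J * (μ + 1) = (lam + J) + J * μ := by ring
    have e2 : (2⁻¹ : ℝ) ^ (lam + J + C) = (2 ^ C)⁻¹ * ((2 : ℝ) ^ (lam + J))⁻¹ := by
      rw [pow_add, inv_pow, inv_pow]; ring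
    rw [e1, pow_add (2 : ℝ), e2]
    field_simp
  calc (2⁻¹ : ℝ) ^ (lam + J + C) * (N : ℝ) ^ e
      ≤ (2⁻¹ : ℝ) ^ (lam + J + C) * (2 : ℝ) ^ (lam + J * (μ + 1)) :=
        mul_le_mul_of_nonneg_left h8 (by positivity)
    _ = (2 ^ C)⁻¹ * (2 : ℝ) ^ (J * μ) := h10
    _ ≤ (2 ^ C)⁻¹ * (2 ^ C * (F i N : ℝ)) := mul_le_mul_of_nonneg_left h9 (by positivity)
    _ = F i N := by field_simp

end Pool.Agent.Lib.MP_8fac0f_nt.OX
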