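import Pool.Agent.Lib.MP_8fac0f_nt.OV.Per

/-!
# Patterns of signs in one overlap
-/

set_option autoImplicit false

namespace Pool.Agent.Lib.MP_8fac0f_nt.OX

open Finset N OV

/-- The sign of the number of the carries in `t + B`. -/
noncomputable def Gf (t B : ℕ) : ℝ := sg t * sg (t + B) * sg B

theorem Gf_zero (B : ℕ) : Gf 0 B = 1 := by
  unfold Gf
  rw [sg_zero, zero_add, one_mul]
  exact sg_sq B

theorem Gf_cases (t B : ℕ) : Gf t B = 1 ∨ Gf t B = -1 := by
  unfold Gf
  rcases sg_cases t with h1 | h1 <;> rcases sg_cases (t + B) with h2 | h2 <;>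
    rcases sg_cases B with h3 | h3 <;> rw [h1, h2, h3] <;> norm_num

theorem Gf_modB (t b W B : ℕ) (h : t + b < 2 ^ W) : Gf t (2 ^ W * B + b) = Gf t b := by
  unfold Gf
  have h1 : t + (2 ^ W * B + b) = 2 ^ W * B + (t + b) := by ring
  rw [h1, sg_split W B _ h, sg_split W B b (by omega)]
  have h2 := sg_sq B
  calc sg t * (sg (t + b) * sg B) * (sg b * sg B)
      = sg t * sg (t + b) * sg b * (sg B * sg B) := by ring
    _ = _ := by rw [h2, mul_one]

theorem Gf_modt (u b Z H : ℕ) (h : u + b < 2 ^ Z) : Gf (u + 2 ^ Z * H) b = Gf u b := by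
  unfold Gf
  have h1 : u + 2 ^ Z * H + b = 2 ^ Z * H + (u + b) := by ring
  rw [h1, add_comm u, sg_split Z H _ h, sg_split Z H u (by omega)]
  have h2 := sg_sq H
  calc sg u * sg H * (sg (u + b) * sg H) * sg b
      = sg u * sg (u + b) * sg b * (sg H * sg H) := by ring
    _ = _ := by rw [h2, mul_one]

/-- Disjoint blocks. -/
theorem sg_V_disj (j n : ℕ) : ∀ b : ℕ → ℕ, (∀ l, l ≤ n → b l < 2 ^ j) →
    sg (V b j n) = ∏ l ∈ range (n + 1), sg (b l) := by
  induction n with
  | zero => intro b _; rw [V_zero, prod_range_one]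
  | succ n ih =>
    intro b hb
    rw [V_succ, add_comm, sg_split j _ _ (hb 0 (by omega)), ih _ (fun l hl => hb (l + 1) (by omega)),
      prod_range_succ' _ (n + 1)]
    ring

theorem V_add (b c : ℕ → ℕ) (j n : ℕ) : V b j n + V c j n = V (fun l => b l + c l) j n := by
  unfold V
  rw [← sum_add_distrib]
  exact sum_congr rfl fun l _ => by ring

theorem V_mul (b : ℕ → ℕ) (c j n : ℕ) : c * V b j n = V (fun l => c * b l) j n := by
  unfold V
  rw [mul_sum]
  exact sum_congr rfl fun l _ => by ring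

theorem Gf_V (u b : ℕ → ℕ) (Y n : ℕ) (h : ∀ r, r ≤ n → u r + b r < 2 ^ Y) :
    Gf (V u Y n) (V b Y n) = ∏ r ∈ range (n + 1), Gf (u r) (b r) := by
  unfold Gf
  rw [V_add, sg_V_disj Y n u (fun r hr => by have := h r hr; omega),
    sg_V_disj Y n b (fun r hr => by have := h r hr; omega),
    sg_V_disj Y n (fun l => u l + b l) h, ← prod_mul_distrib, ← prod_mul_distrib]

theorem V_lt (b : ℕ → ℕ) (j n : ℕ) : (∀ l, l ≤ n → b l < 2 ^ j) →
    V b j n < 2 ^ (j * (n + 1)) := by
  induction n with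
  | zero => intro h; rw [V_zero, zero_add, mul_one]; exact h 0 le_rfl
  | succ n ih =>
    intro h
    have h1 := ih (fun l hl => h l (by omega))
    have h2 := h (n + 1) le_rfl
    have h3 : V b j (n + 1) = V b j n + 2 ^ (j * (n + 1)) * b (n + 1) := by
      unfold V
      rw [sum_range_succ _ (n + 1), mul_comm (b (n + 1))]
    have h4 : 2 ^ (j * (n + 1 + 1)) = 2 ^ (j * (n + 1)) * 2 ^ j := by
      rw [← pow_add]; congr 1
    rw [h3, h4]
    calc V b j n + 2 ^ (j * (n + 1)) * b (n + 1)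
        < 2 ^ (j * (n + 1)) + 2 ^ (j * (n + 1)) * b (n + 1) := Nat.add_lt_add_right h1 _
      _ = 2 ^ (j * (n + 1)) * (b (n + 1) + 1) := by ring
      _ ≤ _ := Nat.mul_le_mul_left _ h2

/-- The prefixes of a concatenation. -/
theorem V_div (Z n : ℕ) : ∀ (u : ℕ → ℕ) (q : ℕ), q ≤ n → (∀ l, l ≤ n → u l < 2 ^ Z) →
    ∃ H, V u Z n / 2 ^ (Z * q) = u q + 2 ^ Z * H := by
  induction n with
  | zero =>
    intro u q hq _
    have : q = 0 := by omega
    subst this
    exact ⟨0, by rw [V_zero, mul_zero, pow_zero, Nat.div_one, mul_zero, add_zero]⟩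
  | succ n ih =>
    intro u q hq hu
    rcases Nat.eq_zero_or_pos q with rfl | hq0
    · exact ⟨V (fun l => u (l + 1)) Z n, by rw [mul_zero, pow_zero, Nat.div_one, V_succ]⟩
    · obtain ⟨q, rfl⟩ : ∃ q', q = q' + 1 := ⟨q - 1, by omega⟩
      obtain ⟨H, hH⟩ := ih (fun l => u (l + 1)) q (by omega) (fun l hl => hu (l + 1) (by omega))
      refine ⟨H, ?_⟩
      have e1 : 2 ^ (Z * (q + 1)) = 2 ^ Z * 2 ^ (Z * q) := by rw [← pow_add]; congr 1; ring
      rw [V_succ, e1, ← Nat.div_div_eq_div_mul, Nat.add_mul_div_left _ _ (by positivity),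
        Nat.div_eq_of_lt (hu 0 (by omega)), zero_add, hH]

/-- A multiplier that separates `c r` from the smaller numbers. -/
theorem sep (c : ℕ → ℕ) (hc0 : 1 ≤ c 0) (hc : StrictMono c) (r : ℕ) :
    ∃ m p, (∀ i, i < r → Gf (2 ^ p) (c i * m) = 1) ∧ Gf (2 ^ p) (c r * m) = -1 := by
  have hcr : 1 ≤ c r := hc0.trans (hc.monotone (Nat.zero_le r))
  have hp : c r * c r < 2 ^ (c r * c r) := Nat.lt_two_pow_self
  set p := c r * c r with hpd
  set z := 2 ^ p / c r with hz
  have h1 : c r * z ≤ 2 ^ p := Nat.mul_div_le _ _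
  have h2 : 2 ^ p < c r * (z + 1) := Nat.lt_mul_div_succ _ (by omega)
  have h3 : c r ≤ z := (Nat.le_div_iff_mul_le (by omega)).2 hp.le
  have h4 : c r ≤ 2 ^ p := by nlinarith
  have h5 : c r * (z + 1) = c r * z + c r := by ring
  have hone : sg (2 ^ p) = -1 := by
    have := sg_two_pow_mul p 1
    rwa [mul_one, sg_one] at this
  refine ⟨z + 1, p, fun i hi => ?_, ?_⟩
  · have h6 : c i + 1 ≤ c r := hc hi
    have h7 : c i * (z + 1) < 2 ^ p := by
      have h8 : (c i + 1) * (z + 1) ≤ c r * (z + 1) := Nat.mul_le_mul_right _ h6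
      have h9 : (c i + 1) * (z + 1) = c i * (z + 1) + (z + 1) := by ring
      omega
    have h8 : sg (2 ^ p + c i * (z + 1)) = sg (c i * (z + 1)) * sg 1 := by
      have := sg_split p 1 _ h7
      rwa [mul_one] at this
    unfold Gf
    rw [hone, h8, sg_one]
    have h9 := sg_sq (c i * (z + 1))
    linear_combination h9
  · obtain ⟨y, hy⟩ : ∃ y, c r * (z + 1) = 2 ^ p + y := ⟨c r * (z + 1) - 2 ^ p, by omega⟩
    have hylt : y < 2 ^ p := by
      rcases Nat.lt_or_ge y (2 ^ p) with h | h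
      · exact h
      · exfalso
        have h6 : c r * c r ≤ c r * z := Nat.mul_le_mul_left _ h3
        have h7 : c r < 2 ^ p := lt_of_le_of_lt (Nat.le_mul_of_pos_left _ hcr) hp
        omega
    have h8 : sg (2 ^ p + y) = sg y * sg 1 := by
      have := sg_split p 1 _ hylt
      rwa [mul_one] at this
    have h9 : sg (2 ^ p + (2 ^ p + y)) = sg y * sg 1 := by
      have h10 := sg_split (p + 1) 1 y (by rw [pow_succ]; omega)
      have h11 : 2 ^ (p + 1) * 1 + y = 2 ^ p + (2 ^ p + y) := by ring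
      rwa [h11] at h10
    unfold Gf
    rw [hy, hone, h8, h9, sg_one]
    have h10 := sg_sq y
    linear_combination (-1 : ℝ) * h10

/-- Triangular systems of signs. -/
theorem tri (v : ℕ → ℕ → ℝ) (hv : ∀ r i, v r i = 1 ∨ v r i = -1) (hlt : ∀ r i, i < r → v r i = 1)
    (hdiag : ∀ r, v r r = -1) (L : ℕ) : ∀ ε : ℕ → ℝ, (∀ i, ε i = 1 ∨ ε i = -1) →
    ∃ E : Finset ℕ, E ⊆ range L ∧ ∀ i, i < L →
      ∏ r ∈ range L, (if r ∈ E then v r i else 1) = ε i := by
  induction L with
  | zero => intro ε _; exact ⟨∅, empty_subset _, fun i hi => absurd hi (Nat.not_lt_zero i)⟩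
  | succ L ih =>
    intro ε hε
    obtain ⟨E, hE, h⟩ := ih ε hε
    have hL : L ∉ E := fun h => by have := mem_range.1 (hE h); omega
    have hprod : ∀ E' : Finset ℕ, (∀ r, r < L → (r ∈ E' ↔ r ∈ E)) → ∀ i,
        ∏ r ∈ range L, (if r ∈ E' then v r i else 1) =
          ∏ r ∈ range L, (if r ∈ E then v r i else 1) := fun E' hE' i =>
      prod_congr rfl fun r hr => by simp only [hE' r (mem_range.1 hr)]
    have hval : (∏ r ∈ range L, (if r ∈ E then v r L else 1)) = ε L ∨
        (∏ r ∈ range L, (if r ∈ E then v r L else 1)) = -ε L := by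
      have h1 : (∏ r ∈ range L, (if r ∈ E then v r L else 1)) = 1 ∨
          (∏ r ∈ range L, (if r ∈ E then v r L else 1)) = -1 := by
        refine prod_induction _ (fun x : ℝ => x = 1 ∨ x = -1) ?_ (Or.inl rfl) ?_
        · rintro a b (rfl | rfl) (rfl | rfl) <;> norm_num
        · intro r _
          split_ifs
          · exact hv r L
          · exact Or.inl rfl
      rcases h1 with h1 | h1 <;> rcases hε L with h2 | h2 <;> rw [h1, h2] <;> norm_num
    rcases hval with h1 | h1
    · refine ⟨E, hE.trans (range_mono (Nat.le_succ L)), fun i hi => ?_⟩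
      rw [prod_range_succ, if_neg hL, mul_one]
      rcases Nat.lt_or_ge i L with hi' | hi'
      · exact h i hi'
      · have : i = L := by omega
        subst this
        exact h1
    · refine ⟨insert L E, ?_, fun i hi => ?_⟩
      · rw [insert_subset_iff]
        exact ⟨mem_range.2 (Nat.lt_succ_self L), hE.trans (range_mono (Nat.le_succ L))⟩
      · rw [prod_range_succ, if_pos (mem_insert_self L E), hprod (insert L E) (fun r hr => by
          rw [mem_insert]
          constructor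
          · rintro (rfl | h2)
            · exact absurd hr (lt_irrefl _)
            · exact h2
          · exact Or.inr)]
        rcases Nat.lt_or_ge i L with hi' | hi'
        · rw [h i hi', hlt L i hi', mul_one]
        · have : i = L := by omega
          subst this
          rw [h1, hdiag]
          ring

/-- One multiplier and one string whose prefixes give every pattern. -/
theorem patterns (c : ℕ → ℕ) (hc0 : 1 ≤ c 0) (hc : StrictMono c) (L : ℕ) :
    ∃ m τ S : ℕ, ∀ ε : ℕ → ℝ, (∀ i, ε i = 1 ∨ ε i = -1) →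
      ∃ s, s ≤ S ∧ ∀ i, i < L → Gf (τ / 2 ^ s) (c i * m) = ε i := by
  choose mm pp h1 h2 using sep c hc0 hc
  -- the multiplier
  obtain ⟨Y, hY⟩ : ∃ Y, ∀ r, r ≤ L → ∀ i, i < L → 2 ^ pp r + c i * mm r < 2 ^ Y := by
    refine ⟨∑ r ∈ range (L + 1), ∑ i ∈ range L, (2 ^ pp r + c i * mm r), fun r hr i hi => ?_⟩
    refine lt_of_le_of_lt ?_ Nat.lt_two_pow_self
    refine le_trans ?_ (single_le_sum (f := fun r => ∑ i ∈ range L, (2 ^ pp r + c i * mm r))
      (fun _ _ => Nat.zero_le _) (mem_range.2 (Nat.lt_succ_of_le hr)))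
    exact single_le_sum (f := fun i => 2 ^ pp r + c i * mm r)
      (fun _ _ => Nat.zero_le _) (mem_range.2 hi)
  rcases Nat.eq_zero_or_pos L with rfl | hL
  · exact ⟨0, 0, 0, fun ε _ => ⟨0, le_rfl, fun i hi => absurd hi (Nat.not_lt_zero i)⟩⟩
  set m := V mm Y L with hm
  set uE : Finset ℕ → ℕ := fun E => V (fun r => if r ∈ E then 2 ^ pp r else 0) Y L with huE
  have hval : ∀ E : Finset ℕ, ∀ i, i < L → Gf (uE E) (c i * m) =
      ∏ r ∈ range (L + 1), (if r ∈ E then Gf (2 ^ pp r) (c i * mm r) else 1) := by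
    intro E i hi
    rw [hm, V_mul, huE]
    rw [Gf_V _ _ Y L (fun r hr => by
      have h3 := hY r hr i hi
      have h4 : 0 < 2 ^ pp r := by positivity
      split_ifs
      · exact h3
      · omega)]
    refine prod_congr rfl fun r _ => ?_
    split_ifs
    · rfl
    · exact Gf_zero _
  -- the string
  set lst := (range (L + 1)).powerset.toList with hlst
  set Z := (Y * (L + 1)) + 1 with hZ
  have hulow : ∀ E : Finset ℕ, uE E < 2 ^ (Y * (L + 1)) := fun E => by
    refine V_lt _ Y L fun r hr => ?_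
    have h3 := hY r hr 0 hL
    split_ifs
    · omega
    · positivity
  have hblow : ∀ i, i < L → c i * m < 2 ^ (Y * (L + 1)) := fun i hi => by
    rw [hm, V_mul]
    exact V_lt _ Y L fun r hr => by
      have h3 := hY r hr i hi
      have h4 : 0 < 2 ^ pp r := by positivity
      omega
  have hZ2 : 2 ^ Z = 2 * 2 ^ (Y * (L + 1)) := by rw [hZ, pow_succ]; ring
  set τ := V (fun q => uE (lst.getD q ∅)) Z lst.length with hτ
  refine ⟨m, τ, Z * lst.length, fun ε hε => ?_⟩
  obtain ⟨E, hE, h3⟩ := tri (fun r i => Gf (2 ^ pp r) (c i * mm r)) (fun r i => Gf_cases _ _)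
    (fun r i hi => h1 r i hi) h2 (L + 1) ε hε
  have hEl : E ∈ lst := mem_toList.2 (mem_powerset.2 hE)
  obtain ⟨q, hq, hqE⟩ := List.mem_iff_getElem.1 hEl
  obtain ⟨H, hH⟩ := V_div Z lst.length (fun q => uE (lst.getD q ∅)) q hq.le
    (fun l _ => by have := hulow (lst.getD l ∅); omega)
  refine ⟨Z * q, Nat.mul_le_mul_left _ hq.le, fun i hi => ?_⟩
  have hget : lst.getD q ∅ = E := by
    rw [List.getD_eq_getElem _ _ hq, hqE]
  rw [hτ, hH, hget, Gf_modt _ _ Z H (by
    have h4 := hulow E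
    have h5 := hblow i hi
    omega), hval E i hi]
  exact h3 i (by omega)

end Pool.Agent.Lib.MP_8fac0f_nt.OX
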