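import Pool.Agent.Lib.MP_8fac0f_nt.OX.Gf

/-!
# Every word occurs often
-/

set_option autoImplicit false

namespace Pool.Agent.Lib.MP_8fac0f_nt.OX

open Finset Polynomial N OV

theorem block (b : ℕ → ℕ) (j n t : ℕ) (ht : b 0 / 2 ^ j = t) (h1 : t + b 1 < 2 ^ j)
    (hb : ∀ l, 2 ≤ l → l ≤ n + 2 → b l < 2 ^ j) :
    sg (V b j (n + 2)) =
      (sg (b 0) * sg (b 1) * ∏ l ∈ range (n + 1), sg (b (l + 2))) * Gf t (b 1) := by
  rw [V_succ, V_succ]
  have h0 := Nat.div_add_mod (b 0) (2 ^ j)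
  rw [ht] at h0
  set V2 := V (fun l => b (l + 1 + 1)) j n with hV2
  have hmod : b 0 % 2 ^ j < 2 ^ j := Nat.mod_lt _ (by positivity)
  have e1 : b 0 + 2 ^ j * (b (0 + 1) + 2 ^ j * V2) =
      2 ^ j * (2 ^ j * V2 + (t + b 1)) + b 0 % 2 ^ j := by
    have e2 : 2 ^ j * (2 ^ j * V2 + (t + b 1)) = 2 ^ j * t + 2 ^ j * (b (0 + 1) + 2 ^ j * V2) := by
      rw [zero_add]; ring
    omega
  rw [e1, sg_split j _ _ hmod, sg_split j _ _ h1]
  have hV : sg V2 = ∏ l ∈ range (n + 1), sg (b (l + 2)) :=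
    sg_V_disj j n (fun l => b (l + 1 + 1)) (fun l hl => hb (l + 2) (by omega) (by omega))
  have h2 : sg (b 0) = sg (b 0 % 2 ^ j) * sg t := by
    conv_lhs => rw [← h0]
    exact sg_split j t _ hmod
  rw [hV, h2]
  unfold Gf
  have h3 := sg_sq t
  have h4 := sg_sq (b 1)
  calc sg (b 0 % 2 ^ j) * (sg (t + b 1) * ∏ l ∈ range (n + 1), sg (b (l + 2)))
      = sg (b 0 % 2 ^ j) * (sg (t + b 1) * ∏ l ∈ range (n + 1), sg (b (l + 2))) * 1 * 1 := by ring
    _ = sg (b 0 % 2 ^ j) * (sg (t + b 1) * ∏ l ∈ range (n + 1), sg (b (l + 2))) *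
        (sg t * sg t) * (sg (b 1) * sg (b 1)) := by rw [h3, h4]
    _ = _ := by ring

theorem eval_mono (P : ℕ[X]) (a b : ℕ) (h : a ≤ b) : P.eval a ≤ P.eval b := by
  rw [eval_eq_sum_range, eval_eq_sum_range]
  exact sum_le_sum fun l _ => Nat.mul_le_mul_left _ (Nat.pow_le_pow_left h l)

theorem slope (P : ℕ[X]) (d a y : ℕ) (hd : P.natDegree = d) (h : 1 ≤ a + y) :
    P.eval (a + y) ≤ P.eval a + y * (d * P.eval 1 * (a + y) ^ (d - 1)) := by
  rw [eval_eq_sum_range, eval_eq_sum_range, eval_eq_sum_range, hd]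
  have h1 : ∀ l ∈ range (d + 1), P.coeff l * (a + y) ^ l ≤
      P.coeff l * a ^ l + P.coeff l * 1 ^ l * (d * y * (a + y) ^ (d - 1)) := by
    intro l hl
    have hl' := mem_range.1 hl
    have h2 := bern l a y
    rw [one_pow, mul_one, ← mul_add]
    refine Nat.mul_le_mul_left _ (h2.trans (Nat.add_le_add_left ?_ _))
    exact Nat.mul_le_mul (Nat.mul_le_mul_right _ (by omega))
      (Nat.pow_le_pow_right h (by omega))
  refine (sum_le_sum h1).trans ?_
  rw [sum_add_distrib, ← sum_mul]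
  refine Nat.add_le_add_left (le_of_eq ?_) _
  ring

theorem hs1_mono (P : ℕ[X]) (d : ℕ) (hd : P.natDegree = d) (hd2 : 2 ≤ d) :
    StrictMono fun i => hs P 1 (1 + i) := by
  refine strictMono_nat_of_lt_succ fun i => ?_
  change hs P 1 (1 + i) < hs P 1 (1 + (i + 1))
  unfold hs
  have hdeg : (hasseDeriv 1 P).natDegree < d - 1 + 1 := by
    rw [natDegree_hasseDeriv]; omega
  rw [eval_eq_sum_range' hdeg, eval_eq_sum_range' hdeg]
  refine sum_lt_sum (fun l _ => Nat.mul_le_mul_left _ (Nat.pow_le_pow_left (by omega) l))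
    ⟨d - 1, mem_range.2 (by omega), ?_⟩
  have h1 : 0 < (hasseDeriv 1 P).coeff (d - 1) := by
    rw [hasseDeriv_coeff]
    have e1 : d - 1 + 1 = d := by omega
    rw [e1]
    have h2 : P.coeff d ≠ 0 := by
      rw [← hd]
      exact leadingCoeff_ne_zero.2 (by rintro rfl; simp at hd; omega)
    have h3 : 0 < d.choose 1 := Nat.choose_pos (by omega)
    exact Nat.mul_pos (by exact_mod_cast h3) (Nat.pos_of_ne_zero h2)
  exact Nat.mul_lt_mul_of_pos_left (Nat.pow_lt_pow_left (by omega) (by omega)) h1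

theorem hs_mod (P : ℕ[X]) (l a b W : ℕ) (h : a ≡ b [MOD W]) : hs P l a ≡ hs P l b [MOD W] := by
  unfold hs
  rw [eval_eq_sum_range, eval_eq_sum_range]
  exact Nat.ModEq.sum fun i _ => (h.pow i).mul_left _

/-- The interval of the `x` with prescribed leading digits of `P x`. -/
theorem interval (P : ℕ[X]) (n τ γ h : ℕ) (hd : P.natDegree = n + 2)
    (hγ : (n + 2) * P.eval 1 * (τ + 1) ^ (n + 1) ≤ 2 ^ γ) (h0 : 2 * P.eval 0 + 1 ≤ 2 ^ h)
    (hh : γ + 1 ≤ h) :
    ∃ y1 y2, y1 + 2 ^ (h - 1 - γ) ≤ y2 + 1 ∧ y2 ≤ (τ + 1) * 2 ^ h ∧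
      ∀ x, y1 ≤ x → x < y2 → P.eval x / 2 ^ ((n + 2) * h) = τ := by
  classical
  set k := (n + 2) * h with hk
  have hlow : ∀ x, x ^ (n + 2) ≤ P.eval x := fun x => by
    have h1 := hs_lower P (n + 2) 0 x hd (by omega) (Nat.zero_le _)
    unfold hs at h1
    rwa [hasseDeriv_zero', Nat.sub_zero] at h1
  have hex : ∀ A, ∃ y, A ≤ P.eval y := fun A =>
    ⟨A, (Nat.le_self_pow (by omega) A).trans (hlow A)⟩
  set y1 := Nat.find (hex (τ * 2 ^ k)) with hy1
  set y2 := Nat.find (hex ((τ + 1) * 2 ^ k)) with hy2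
  have s1 : τ * 2 ^ k ≤ P.eval y1 := Nat.find_spec (hex (τ * 2 ^ k))
  have s2 : (τ + 1) * 2 ^ k ≤ P.eval y2 := Nat.find_spec (hex ((τ + 1) * 2 ^ k))
  have m1 : ∀ y, y < y1 → P.eval y < τ * 2 ^ k := fun y hy =>
    not_le.1 (Nat.find_min (hex (τ * 2 ^ k)) hy)
  have m2 : ∀ y, y < y2 → P.eval y < (τ + 1) * 2 ^ k := fun y hy =>
    not_le.1 (Nat.find_min (hex ((τ + 1) * 2 ^ k)) hy)
  have hhk : 2 ^ h ≤ 2 ^ k := Nat.pow_le_pow_right (by norm_num)
    (Nat.le_mul_of_pos_left h (by omega))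
  have hexp : (τ + 1) * 2 ^ k = τ * 2 ^ k + 2 ^ k := by ring
  have hy2pos : 1 ≤ y2 := by
    rcases Nat.eq_zero_or_pos y2 with h | h
    · rw [h] at s2; omega
    · exact h
  have hy2le : y2 ≤ (τ + 1) * 2 ^ h := by
    by_contra hcon
    have h1 := m2 (y2 - 1) (by omega)
    have h2 := hlow (y2 - 1)
    have h3 : ((τ + 1) * 2 ^ h) ^ (n + 2) ≤ (y2 - 1) ^ (n + 2) :=
      Nat.pow_le_pow_left (by omega) _
    have h4 : (τ + 1) * 2 ^ k ≤ ((τ + 1) * 2 ^ h) ^ (n + 2) := by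
      rw [mul_pow, ← pow_mul, mul_comm h, ← hk]
      exact Nat.mul_le_mul_right _ (Nat.le_self_pow (by omega) _)
    omega
  refine ⟨y1, y2, ?_, hy2le, fun x hx1 hx2 => ?_⟩
  · -- the length
    have h1 : P.eval (y1 - 1) ≤ τ * 2 ^ k + P.eval 0 := by
      rcases Nat.eq_zero_or_pos y1 with h | h
      · rw [h]; exact Nat.le_add_left _ _
      · have := m1 (y1 - 1) (by omega)
        omega
    have hle : y1 - 1 ≤ y2 := by
      by_contra hcon
      have h2 := eval_mono P y2 (y1 - 1) (by omega)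
      omega
    obtain ⟨y, hy⟩ : ∃ y, y2 = (y1 - 1) + y := ⟨y2 - (y1 - 1), by omega⟩
    have h2 := slope P (n + 2) (y1 - 1) y hd (by omega)
    rw [← hy] at h2
    have h3 : (n + 2) * P.eval 1 * y2 ^ (n + 2 - 1) ≤ 2 ^ (γ + h * (n + 1)) := by
      have e1 : n + 2 - 1 = n + 1 := by omega
      rw [e1]
      calc (n + 2) * P.eval 1 * y2 ^ (n + 1)
          ≤ (n + 2) * P.eval 1 * ((τ + 1) * 2 ^ h) ^ (n + 1) :=
            Nat.mul_le_mul_left _ (Nat.pow_le_pow_left hy2le _)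
        _ = (n + 2) * P.eval 1 * (τ + 1) ^ (n + 1) * 2 ^ (h * (n + 1)) := by
            rw [mul_pow, ← pow_mul]; ring
        _ ≤ 2 ^ γ * 2 ^ (h * (n + 1)) := Nat.mul_le_mul_right _ hγ
        _ = _ := (pow_add _ _ _).symm
    have h4 : 2 ^ k ≤ 2 * (y * 2 ^ (γ + h * (n + 1))) := by
      have h5 := Nat.mul_le_mul_left y h3
      omega
    have h5 : 2 ^ (h - 1 - γ) ≤ y := by
      have e1 : 2 ^ k = 2 ^ (h - 1 - γ) * (2 * 2 ^ (γ + h * (n + 1))) := by
        rw [← pow_succ', ← pow_add, hk]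
        congr 1
        have : (n + 2) * h = h * (n + 1) + h := by ring
        omega
      rw [e1] at h4
      have h6 : 2 * (y * 2 ^ (γ + h * (n + 1))) = y * (2 * 2 ^ (γ + h * (n + 1))) := by ring
      rw [h6] at h4
      exact Nat.le_of_mul_le_mul_right h4 (by positivity)
    omega
  · have h1 := eval_mono P y1 x hx1
    have h2 := m2 x hx2
    exact Nat.div_eq_of_lt_le (by omega) h2

theorem word_count (P : ℕ[X]) (n L : ℕ) (hd : P.natDegree = n + 2) :
    ∃ C0 lam h0 : ℕ, ∀ h : ℕ, h0 ≤ h → ∀ N : ℕ, 2 ^ (lam + (n + 3) * h) ≤ N →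
      ∀ w : ℕ → ℝ, (∀ i, w i = 1 ∨ w i = -1) → 2 ^ (2 * h) ≤ 2 ^ C0 *
        ((range N).filter fun a => ∀ i, i < L → sg (P.eval (a + i)) = w i).card := by
  classical
  set c : ℕ → ℕ := fun i => hs P 1 (1 + i) with hc
  have hc0 : 1 ≤ c 0 := by
    have h1 := hs_lower P (n + 2) 1 1 hd (by omega) (by omega)
    rw [one_pow] at h1
    exact h1
  obtain ⟨m0, τ, S, hpat⟩ := patterns c hc0 (hs1_mono P (n + 2) hd (by omega)) L
  obtain ⟨W, hW1, hW2⟩ : ∃ W, m0 < 2 ^ W ∧ ∀ i, i < L → τ + c i * m0 < 2 ^ W := by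
    refine ⟨m0 + ∑ i ∈ range L, (τ + c i * m0), ?_, fun i hi => ?_⟩
    · exact lt_of_le_of_lt (Nat.le_add_right _ _) Nat.lt_two_pow_self
    · refine lt_of_le_of_lt ?_ Nat.lt_two_pow_self
      exact (single_le_sum (f := fun i => τ + c i * m0) (fun _ _ => Nat.zero_le _)
        (mem_range.2 hi)).trans (Nat.le_add_left _ _)
  obtain ⟨γ, hγ⟩ : ∃ γ, (n + 2) * P.eval 1 * (τ + 1) ^ (n + 1) ≤ 2 ^ γ :=
    ⟨_, Nat.lt_two_pow_self.le⟩
  obtain ⟨κ, hκ⟩ : ∃ κ, 4 * (P.eval 2 * (τ + 1) ^ (n + 2)) ≤ 2 ^ κ :=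
    ⟨_, Nat.lt_two_pow_self.le⟩
  refine ⟨γ + W + 3 + (κ + W) + (S + 1), S, γ + W + κ + τ + L + 10 + (2 * P.eval 0 + 1),
    fun h hh N hN w hw => ?_⟩
  have h0 : 2 * P.eval 0 + 1 ≤ 2 ^ h := (by omega : 2 * P.eval 0 + 1 ≤ h).trans
    Nat.lt_two_pow_self.le
  obtain ⟨y1, y2, hlen, hy2, hint⟩ := interval P n τ γ h hd hγ h0 (by omega)
  set k := (n + 2) * h with hk
  have hkh : h * 2 ≤ k := by
    rw [hk]
    calc h * 2 = 2 * h := mul_comm _ _
      _ ≤ _ := Nat.mul_le_mul_right _ (by omega)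
  have hτk : τ < 2 ^ (k - 2) := Nat.lt_two_pow_self.trans_le
    (Nat.pow_le_pow_right (by norm_num) (by omega))
  -- the arguments
  set z0 := y1 / 2 ^ W + 1 with hz0
  set x : ℕ → ℕ := fun z => 2 ^ W * (z0 + z) + 1 with hx
  set mm : ℕ → ℕ := fun y => 2 ^ W * y + m0 with hmm
  have hz01 : y1 < 2 ^ W * z0 := Nat.lt_mul_div_succ y1 (by positivity)
  have hz02 : 2 ^ W * z0 ≤ y1 + 2 ^ W := by
    have := Nat.mul_div_le y1 (2 ^ W)
    rw [hz0, mul_add, mul_one]
    omega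
  have hxr : ∀ z, z < 2 ^ (h - 1 - γ - W - 2) → y1 ≤ x z ∧ x z + L < y2 := by
    intro z hz
    have h1 : 2 ^ W * (z + 1) ≤ 2 ^ (h - 1 - γ - 2) := by
      calc 2 ^ W * (z + 1) ≤ 2 ^ W * 2 ^ (h - 1 - γ - W - 2) := Nat.mul_le_mul_left _ hz
        _ = _ := by rw [← pow_add]; congr 1; omega
    have h2 : 2 ^ W ≤ 2 ^ (h - 1 - γ - 2) := Nat.pow_le_pow_right (by norm_num) (by omega)
    have h3 : L + 5 ≤ 2 ^ (h - 1 - γ - 2) := by
      refine (Nat.lt_two_pow_self (n := L + 5)).le.trans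
        (Nat.pow_le_pow_right (by norm_num) (by omega))
    have h4 : 2 ^ (h - 1 - γ) = 4 * 2 ^ (h - 1 - γ - 2) := by
      have : h - 1 - γ = (h - 1 - γ - 2) + 2 := by omega
      conv_lhs => rw [this, pow_add]
      ring
    have e1 : x z = 2 ^ W * z0 + 2 ^ W * z + 1 := by
      change 2 ^ W * (z0 + z) + 1 = _
      ring
    have e2 : 2 ^ W * (z + 1) = 2 ^ W * z + 2 ^ W := by ring
    constructor
    · omega
    · omega
  have hmr : ∀ y, y < 2 ^ (h - κ - W) → mm y < 2 ^ (h - κ) := by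
    intro y hy
    calc mm y = 2 ^ W * y + m0 := rfl
      _ < 2 ^ W * y + 2 ^ W := Nat.add_lt_add_left hW1 _
      _ = 2 ^ W * (y + 1) := by ring
      _ ≤ 2 ^ W * 2 ^ (h - κ - W) := Nat.mul_le_mul_left _ hy
      _ = _ := by rw [← pow_add]; congr 1; omega
  set F := range (2 ^ (h - 1 - γ - W - 2)) ×ˢ range (2 ^ (h - κ - W)) with hF
  set R := (range N).filter fun a => ∀ i, i < L → sg (P.eval (a + i)) = w i with hR
  set f : ℕ → ℕ × ℕ → ℕ := fun s p => x p.1 + 2 ^ (k + s) * mm p.2 with hf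
  have hxk : ∀ z, z < 2 ^ (h - 1 - γ - W - 2) → x z < 2 ^ k := by
    intro z hz
    have h1 := (hxr z hz).2
    have h2 : (τ + 1) * 2 ^ h ≤ 2 ^ k := by
      have h3 : τ + 1 ≤ 2 ^ h := (by omega : τ + 1 ≤ h).trans Nat.lt_two_pow_self.le
      calc (τ + 1) * 2 ^ h ≤ 2 ^ h * 2 ^ h := Nat.mul_le_mul_right _ h3
        _ = 2 ^ (h * 2) := by rw [← pow_add]; congr 1; ring
        _ ≤ _ := Nat.pow_le_pow_right (by norm_num) hkh
    omega
  have hone : ∀ s, (F.filter fun p => f s p ∈ R).card ≤ R.card := by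
    intro s
    refine card_le_card_of_injOn (f s) (fun p hp => (mem_filter.1 (mem_coe.1 hp)).2) ?_
    have hdiv : ∀ p ∈ F, f s p / 2 ^ (k + s) = mm p.2 ∧ f s p % 2 ^ (k + s) = x p.1 := by
      intro p hp
      have h1 := mem_range.1 (mem_product.1 hp).1
      have h2 : x p.1 < 2 ^ (k + s) := (hxk _ h1).trans_le
        (Nat.pow_le_pow_right (by norm_num) (by omega))
      constructor
      · change (x p.1 + 2 ^ (k + s) * mm p.2) / 2 ^ (k + s) = _
        rw [Nat.add_mul_div_left _ _ (by positivity), Nat.div_eq_of_lt h2, zero_add]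
      · change (x p.1 + 2 ^ (k + s) * mm p.2) % 2 ^ (k + s) = _
        rw [Nat.add_mul_mod_self_left, Nat.mod_eq_of_lt h2]
    intro p hp q hq hpq
    obtain ⟨h1, h2⟩ := hdiv p (mem_filter.1 (mem_coe.1 hp)).1
    obtain ⟨h3, h4⟩ := hdiv q (mem_filter.1 (mem_coe.1 hq)).1
    rw [hpq] at h1 h2
    have h5 : 2 ^ W * (z0 + p.1) + 1 = 2 ^ W * (z0 + q.1) + 1 := h2.symm.trans h4
    have h6 : 2 ^ W * p.2 + m0 = 2 ^ W * q.2 + m0 := h1.symm.trans h3
    have h7 : z0 + p.1 = z0 + q.1 :=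
      Nat.eq_of_mul_eq_mul_left (by positivity : 0 < 2 ^ W) (by omega)
    have h8 : p.2 = q.2 := Nat.eq_of_mul_eq_mul_left (by positivity : 0 < 2 ^ W) (by omega)
    exact Prod.ext (by omega) h8
  have hcov : F ⊆ (range (S + 1)).biUnion fun s => F.filter fun p => f s p ∈ R := by
    intro p hp
    have hp1 := mem_range.1 (mem_product.1 hp).1
    have hp2 := mem_range.1 (mem_product.1 hp).2
    obtain ⟨hx1, hx2⟩ := hxr _ hp1
    have hm := hmr _ hp2
    -- the blocks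
    have hblk : ∀ i, i < L → ∀ l, 1 ≤ l → l ≤ n + 2 →
        hs P l (x p.1 + i) * mm p.2 ^ l ≤ 2 ^ (k - 2) := by
      intro i hi l hl1 hl
      have g1 := hs_upper P (n + 2) l (x p.1 + i) hd hl (by
        change 1 ≤ 2 ^ W * (z0 + p.1) + 1 + i
        omega)
      have g2 : x p.1 + i ≤ (τ + 1) * 2 ^ h := by omega
      have g3 : mm p.2 * 2 ^ κ ≤ (τ + 1) * 2 ^ h := by
        calc mm p.2 * 2 ^ κ ≤ 2 ^ (h - κ) * 2 ^ κ := Nat.mul_le_mul_right _ hm.le
          _ = 2 ^ h := by rw [← pow_add]; congr 1; omega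
          _ ≤ _ := Nat.le_mul_of_pos_left _ (Nat.succ_pos _)
      have g4 : hs P l (x p.1 + i) * mm p.2 ^ l * 2 ^ κ ≤ 2 ^ (k - 2) * 2 ^ κ := by
        calc hs P l (x p.1 + i) * mm p.2 ^ l * 2 ^ κ
            ≤ (P.eval 2 * (x p.1 + i) ^ (n + 2 - l)) * mm p.2 ^ l * (2 ^ κ) ^ l :=
              Nat.mul_le_mul (Nat.mul_le_mul_right _ g1) (Nat.le_self_pow (by omega) _)
          _ = P.eval 2 * ((x p.1 + i) ^ (n + 2 - l) * (mm p.2 * 2 ^ κ) ^ l) := by
              rw [mul_pow]; ring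
          _ ≤ P.eval 2 * (((τ + 1) * 2 ^ h) ^ (n + 2 - l) * ((τ + 1) * 2 ^ h) ^ l) :=
              Nat.mul_le_mul_left _ (Nat.mul_le_mul (Nat.pow_le_pow_left g2 _)
                (Nat.pow_le_pow_left g3 _))
          _ = P.eval 2 * (τ + 1) ^ (n + 2) * 2 ^ k := by
              rw [← pow_add, Nat.sub_add_cancel hl, mul_pow, ← pow_mul, mul_comm h, ← hk]; ring
          _ = (4 * (P.eval 2 * (τ + 1) ^ (n + 2))) * 2 ^ (k - 2) := by
              have e1 : 2 ^ k = 4 * 2 ^ (k - 2) := by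
                have : k = (k - 2) + 2 := by omega
                conv_lhs => rw [this, pow_add]
                ring
              rw [e1]; ring
          _ ≤ 2 ^ κ * 2 ^ (k - 2) := Nat.mul_le_mul_right _ hκ
          _ = _ := mul_comm _ _
      exact Nat.le_of_mul_le_mul_right g4 (by positivity)
    have hk4 : 2 ^ k = 4 * 2 ^ (k - 2) := by
      have : k = (k - 2) + 2 := by omega
      conv_lhs => rw [this, pow_add]
      ring
    -- the signs at scale infinity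
    set b : ℕ → ℕ → ℕ := fun i l => hs P l (x p.1 + i) * mm p.2 ^ l with hb
    set K : ℕ → ℝ := fun i => sg (b i 0) * sg (b i 1) * ∏ l ∈ range (n + 1), sg (b i (l + 2))
      with hK
    have hKc : ∀ i, K i = 1 ∨ K i = -1 := by
      intro i
      have h1 : (∏ l ∈ range (n + 1), sg (b i (l + 2))) = 1 ∨
          (∏ l ∈ range (n + 1), sg (b i (l + 2))) = -1 := by
        refine prod_induction _ (fun x : ℝ => x = 1 ∨ x = -1) ?_ (Or.inl rfl)
          (fun l _ => sg_cases _)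
        rintro a b (rfl | rfl) (rfl | rfl) <;> norm_num
      change sg (b i 0) * sg (b i 1) * _ = 1 ∨ sg (b i 0) * sg (b i 1) * _ = -1
      rcases sg_cases (b i 0) with g0 | g0 <;> rcases sg_cases (b i 1) with g1 | g1 <;>
        rcases h1 with g2 | g2 <;> rw [g0, g1, g2] <;> norm_num
    obtain ⟨s, hsS, hsv⟩ := hpat (fun i => K i * w i) (fun i => by
      rcases hKc i with g1 | g1 <;> rcases hw i with g2 | g2 <;> rw [g1, g2] <;> norm_num)
    refine mem_biUnion.2 ⟨s, mem_range.2 (by omega), mem_filter.2 ⟨hp, mem_filter.2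
      ⟨mem_range.2 ?_, fun i hi => ?_⟩⟩⟩
    · refine lt_of_lt_of_le ?_ hN
      have g1 := hxk _ hp1
      have g2 : 2 ^ k ≤ 2 ^ (k + s) := Nat.pow_le_pow_right (by norm_num) (by omega)
      calc x p.1 + 2 ^ (k + s) * mm p.2 < 2 ^ (k + s) + 2 ^ (k + s) * mm p.2 :=
            Nat.add_lt_add_right (by omega) _
        _ = 2 ^ (k + s) * (mm p.2 + 1) := by ring
        _ ≤ 2 ^ (k + s) * 2 ^ (h - κ) := Nat.mul_le_mul_left _ hm
        _ ≤ 2 ^ (S + (n + 3) * h) := by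
            rw [← pow_add]
            refine Nat.pow_le_pow_right (by norm_num) ?_
            have : (n + 3) * h = k + h := by rw [hk]; ring
            omega
    · have e1 : f s p + i = (x p.1 + i) + 2 ^ (k + s) * mm p.2 := by
        change x p.1 + 2 ^ (k + s) * mm p.2 + i = _
        ring
      have e2 : P.eval (f s p + i) = V (b i) (k + s) (n + 2) := by
        rw [e1, eval_shift P (n + 2) hd.le]
        unfold V
        refine sum_congr rfl fun l _ => ?_
        change _ = hs P l (x p.1 + i) * mm p.2 ^ l * 2 ^ ((k + s) * l)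
        unfold hs
        rw [mul_pow, pow_mul]
        ring
      have hb0 : b i 0 = P.eval (x p.1 + i) := by
        change hs P 0 (x p.1 + i) * mm p.2 ^ 0 = _
        unfold hs
        rw [hasseDeriv_zero', pow_zero, mul_one]
      have ht : b i 0 / 2 ^ (k + s) = τ / 2 ^ s := by
        rw [hb0, pow_add, ← Nat.div_div_eq_div_mul, hint _ (by omega) (by omega)]
      have hpk : 2 ^ k ≤ 2 ^ (k + s) := Nat.pow_le_pow_right (by norm_num) (by omega)
      have hτs : τ / 2 ^ s ≤ τ := Nat.div_le_self _ _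
      have hb1 := hblk i hi 1 le_rfl (by omega)
      have hB : b i 1 = 2 ^ W * (b i 1 / 2 ^ W) + c i * m0 := by
        have g1 : b i 1 % 2 ^ W = c i * m0 := by
          have g2 : x p.1 + i ≡ 1 + i [MOD 2 ^ W] := by
            have g3 : x p.1 ≡ 0 + 1 [MOD 2 ^ W] :=
              Nat.ModEq.add_right 1 (Nat.modEq_zero_iff_dvd.2 (Dvd.intro _ rfl))
            rw [zero_add] at g3
            exact g3.add_right i
          have g4 : mm p.2 ≡ 0 + m0 [MOD 2 ^ W] :=
            Nat.ModEq.add_right m0 (Nat.modEq_zero_iff_dvd.2 (Dvd.intro _ rfl))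
          rw [zero_add] at g4
          have g5 : b i 1 ≡ c i * m0 [MOD 2 ^ W] := by
            change hs P 1 (x p.1 + i) * mm p.2 ^ 1 ≡ hs P 1 (1 + i) * m0 [MOD 2 ^ W]
            rw [pow_one]
            exact (hs_mod P 1 _ _ _ g2).mul g4
          have g6 := hW2 i hi
          have g7 : c i * m0 % 2 ^ W = c i * m0 := Nat.mod_eq_of_lt (by omega)
          rw [← g7]
          exact g5
        have := Nat.div_add_mod (b i 1) (2 ^ W)
        rw [g1] at this
        exact this.symm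
      rw [e2, block (b i) (k + s) n (τ / 2 ^ s) ht (by
        change τ / 2 ^ s + hs P 1 (x p.1 + i) * mm p.2 ^ 1 < _
        omega) (fun l hl1 hl => by
          have := hblk i hi l (by omega) hl
          change hs P l (x p.1 + i) * mm p.2 ^ l < _
          omega)]
      have hG : Gf (τ / 2 ^ s) (b i 1) = K i * w i := by
        rw [hB, Gf_modB _ _ _ _ (by have := hW2 i hi; omega)]
        exact hsv i hi
      rw [hG]
      change K i * (K i * w i) = w i
      rcases hKc i with g1 | g1 <;> rw [g1] <;> ring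
  have hFcard : 2 ^ (2 * h) ≤ 2 ^ (γ + W + 3 + (κ + W)) * F.card := by
    rw [hF, card_product, card_range, card_range, ← pow_add, ← pow_add]
    exact Nat.pow_le_pow_right (by norm_num) (by omega)
  have hcard : F.card ≤ (S + 1) * R.card := by
    refine (card_le_card hcov).trans ?_
    have h1 := card_biUnion_le_card_mul (range (S + 1)) (fun s => F.filter fun p => f s p ∈ R)
      R.card (fun s _ => hone s)
    rwa [card_range] at h1
  calc 2 ^ (2 * h) ≤ 2 ^ (γ + W + 3 + (κ + W)) * F.card := hFcard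
    _ ≤ 2 ^ (γ + W + 3 + (κ + W)) * (2 ^ (S + 1) * R.card) :=
        Nat.mul_le_mul_left _ (hcard.trans (Nat.mul_le_mul_right _ Nat.lt_two_pow_self.le))
    _ = _ := by rw [← mul_assoc, ← pow_add]

end Pool.Agent.Lib.MP_8fac0f_nt.OX
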